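import Pool.Agent.V11124.SeqCycle
import Pool.Agent.V11124.OddCycle

open SimpleGraph

namespace Pool.Agent.Results.MP_0fee77_co.ThetaSaturated

/-- `G` contains a cycle of length `m`. -/
def HasCycle {V : Type} (G : SimpleGraph V) (m : ℕ) : Prop :=
  ∃ (v : V) (w : G.Walk v v), w.IsCycle ∧ w.length = m

/-- `G` is saturated for the family of cycles `C_m` with `m ∈ I`. -/
def IsSaturated {V : Type} (I : Set ℕ) (G : SimpleGraph V) : Prop :=
  (∀ m ∈ I, ¬ HasCycle G m) ∧
    ∀ x y : V, x ≠ y → ¬ G.Adj x y → ∃ m ∈ I, HasCycle (G ⊔ SimpleGraph.edge x y) m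

/-- the saturation number `sat(n, C_I)` -/
noncomputable def sat (n : ℕ) (I : Set ℕ) : ℕ :=
  sInf {e | ∃ G : SimpleGraph (Fin n), IsSaturated I G ∧ G.edgeSet.ncard = e}

theorem HasCycle.map {V W : Type} {G : SimpleGraph V} {H : SimpleGraph W} {m : ℕ}
    (h : HasCycle G m) (f : G →g H) (hf : Function.Injective f) : HasCycle H m := by
  obtain ⟨v, w, hw, hl⟩ := h
  exact ⟨f v, w.map f, hw.map hf, by rw [Walk.length_map]; exact hl⟩

theorem HasCycle.mono {V : Type} {G H : SimpleGraph V} {m : ℕ}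
    (h : HasCycle G m) (hle : G ≤ H) : HasCycle H m :=
  h.map (SimpleGraph.Hom.ofLE hle) (fun _ _ h => h)

/-! ### The theta graph -/

section Theta

variable (m l : ℕ)

abbrev TV := (Fin m × Fin l) ⊕ Bool

variable {m l}

def pos (a : Fin m) (i : ℕ) : TV m l :=
  if h0 : i = 0 then Sum.inr false else if h : i ≤ l then Sum.inl (a, ⟨i - 1, by omega⟩) else Sum.inr true

theorem pos_inj {a b : Fin m} {i j : ℕ} (hi : i ≤ l + 1) (hj : j ≤ l + 1)
    (h : (pos a i : TV m l) = pos b j) : i = j ∧ (i = 0 ∨ i = l + 1 ∨ a = b) := by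
  unfold pos at h
  split_ifs at h
  all_goals first
    | (exfalso; simp at h; done)
    | (refine ⟨?_, Or.inl ?_⟩ <;> omega)
    | (refine ⟨?_, Or.inr (Or.inl ?_)⟩ <;> omega)
    | (simp only [Sum.inl.injEq, Prod.mk.injEq, Fin.mk.injEq] at h
       refine ⟨?_, Or.inr (Or.inr h.1)⟩
       omega)

theorem pos_zero (a b : Fin m) : (pos a 0 : TV m l) = pos b 0 := by simp [pos]

theorem pos_last (a b : Fin m) : (pos a (l + 1) : TV m l) = pos b (l + 1) := by
  simp [pos]

def theta (m l : ℕ) : SimpleGraph (TV m l) where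
  Adj x y := ∃ a : Fin m, ∃ i ≤ l, (x = pos a i ∧ y = pos a (i + 1)) ∨ (x = pos a (i + 1) ∧ y = pos a i)
  symm := ⟨fun x y ⟨a, i, hi, h⟩ => ⟨a, i, hi, h.symm.imp And.symm And.symm⟩⟩
  loopless := ⟨fun x ⟨a, i, hi, h⟩ => by
    rcases h with ⟨h1, h2⟩ | ⟨h1, h2⟩
    · have := (pos_inj (by omega) (by omega) (h1.symm.trans h2)).1
      omega
    · have := (pos_inj (by omega) (by omega) (h1.symm.trans h2)).1
      omega⟩

theorem theta_adj (a : Fin m) {i : ℕ} (hi : i ≤ l) : (theta m l).Adj (pos a i) (pos a (i + 1)) :=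
  ⟨a, i, hi, Or.inl ⟨rfl, rfl⟩⟩

theorem nbr_interior {a : Fin m} {i : ℕ} (h1 : 1 ≤ i) (h2 : i ≤ l) {y : TV m l}
    (h : (theta m l).Adj (pos a i) y) : y = pos a (i - 1) ∨ y = pos a (i + 1) := by
  obtain ⟨b, j, hj, ⟨h3, h4⟩ | ⟨h3, h4⟩⟩ := h
  · obtain ⟨h5, h6⟩ := pos_inj (by omega) (by omega) h3
    have h7 : a = b := by omega
    subst h7
    subst h5
    exact Or.inr h4
  · obtain ⟨h5, h6⟩ := pos_inj (by omega) (by omega) h3
    have h7 : a = b := by omega
    subst h7
    left
    rw [h4, show i - 1 = j by omega]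

theorem nbr_zero {a : Fin m} {y : TV m l} (h : (theta m l).Adj (pos a 0) y) :
    ∃ b : Fin m, y = pos b 1 := by
  obtain ⟨b, j, hj, ⟨h3, h4⟩ | ⟨h3, h4⟩⟩ := h
  · obtain ⟨h5, h6⟩ := pos_inj (by omega) (by omega) h3
    subst h5
    exact ⟨b, h4⟩
  · obtain ⟨h5, h6⟩ := pos_inj (by omega) (by omega) h3
    omega

theorem nbr_last {a : Fin m} {y : TV m l} (h : (theta m l).Adj (pos a (l + 1)) y) :
    ∃ b : Fin m, y = pos b l := by
  obtain ⟨b, j, hj, ⟨h3, h4⟩ | ⟨h3, h4⟩⟩ := h
  · obtain ⟨h5, h6⟩ := pos_inj (by omega) (by omega) h3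
    omega
  · obtain ⟨h5, h6⟩ := pos_inj (by omega) (by omega) h3
    have : j = l := by omega
    subst this
    exact ⟨b, h4⟩

/-- the cycle through the branches `a` and `b` -/
def cyc (a b : Fin m) (t : ℕ) : TV m l :=
  if t % (2 * l + 2) ≤ l + 1 then pos a (t % (2 * l + 2)) else pos b (2 * l + 2 - t % (2 * l + 2))

theorem cyc_adj (a b : Fin m) (t : ℕ) : (theta m l).Adj (cyc a b t) (cyc a b (t + 1)) := by
  unfold cyc
  have h0 : t % (2 * l + 2) < 2 * l + 2 := Nat.mod_lt _ (by omega)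
  rcases Nat.lt_or_ge (t % (2 * l + 2) + 1) (2 * l + 2) with h1 | h1
  · have h2 : (t + 1) % (2 * l + 2) = t % (2 * l + 2) + 1 := by
      rw [Nat.add_mod, Nat.mod_eq_of_lt (show 1 < 2 * l + 2 by omega), Nat.mod_eq_of_lt h1]
    rw [h2]
    rcases lt_trichotomy (t % (2 * l + 2)) (l + 1) with h3 | h3 | h3
    · rw [if_pos (by omega), if_pos (by omega)]
      exact theta_adj a (by omega)
    · rw [if_pos (by omega), if_neg (by omega), h3, pos_last a b, show 2 * l + 2 - (l + 1 + 1) = l by omega]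
      exact (theta_adj b le_rfl).symm
    · rw [if_neg (by omega), if_neg (by omega)]
      have h4 : 2 * l + 2 - t % (2 * l + 2) = (2 * l + 2 - (t % (2 * l + 2) + 1)) + 1 := by omega
      rw [h4]
      exact (theta_adj b (by omega)).symm
  · have h2 : (t + 1) % (2 * l + 2) = 0 := by
      have : t % (2 * l + 2) = 2 * l + 1 := by omega
      rw [Nat.add_mod, this, Nat.mod_eq_of_lt (show 1 < 2 * l + 2 by omega)]
      simp
    rw [h2, if_pos (by omega : 0 ≤ l + 1)]
    have h5 : t % (2 * l + 2) = 2 * l + 1 := by omega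
    rw [h5]
    split_ifs with h6
    · have : l = 0 := by omega
      subst this
      exact (theta_adj a le_rfl).symm
    · rw [show 2 * l + 2 - (2 * l + 1) = 0 + 1 by omega, pos_zero a b]
      exact (theta_adj b (by omega)).symm

theorem cyc_inj {a b : Fin m} (hab : a ≠ b) {s t : ℕ} (h : (cyc a b s : TV m l) = cyc a b t) :
    s % (2 * l + 2) = t % (2 * l + 2) := by
  unfold cyc at h
  have h1 : s % (2 * l + 2) < 2 * l + 2 := Nat.mod_lt _ (by omega)
  have h2 : t % (2 * l + 2) < 2 * l + 2 := Nat.mod_lt _ (by omega)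
  split_ifs at h with h3 h4 h4
  · exact (pos_inj h3 h4 h).1
  · have := pos_inj (by omega) (by omega) h
    omega
  · have := pos_inj (by omega) (by omega) h
    omega
  · have := pos_inj (by omega) (by omega) h
    omega

theorem cyc_mod (a b : Fin m) (t : ℕ) : (cyc a b (t + (2 * l + 2)) : TV m l) = cyc a b t := by
  unfold cyc
  rw [Nat.add_mod_right]

theorem long_arc {a b : Fin m} (hab : a ≠ b) (H : SimpleGraph (TV m l)) (hH : theta m l ≤ H) (s k : ℕ)
    (hl : 1 ≤ l) (hk1 : l + 1 ≤ k) (hk2 : k ≤ 2 * l) (hclose : H.Adj (cyc a b (s + k)) (cyc a b s)) :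
    HasCycle H (k + 1) := by
  obtain ⟨v, w, hw, hl'⟩ := Pool.Agent.V11124.SeqCycle.exists_cycle_of_seq H (fun i => cyc a b (s + i)) k (by omega)
    (fun i _ => hH (cyc_adj a b (s + i))) hclose (by
      intro i hi j hj hij
      have := cyc_inj hab hij
      have h3 : (s + i) ≡ (s + j) [MOD (2 * l + 2)] := this
      have h4 := Nat.ModEq.add_left_cancel' s h3
      have h5 : i % (2 * l + 2) = j % (2 * l + 2) := h4
      rwa [Nat.mod_eq_of_lt (by omega), Nat.mod_eq_of_lt (by omega)] at h5)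
  exact ⟨v, w, hw, hl'⟩

theorem exists_other (hm : 2 ≤ m) (a : Fin m) : ∃ b : Fin m, a ≠ b := by
  by_cases h : a.1 = 0
  · exact ⟨⟨1, by omega⟩, fun h' => by have := congrArg Fin.val h'; simp at this; omega⟩
  · exact ⟨⟨0, by omega⟩, fun h' => by have := congrArg Fin.val h'; simp at this; omega⟩

theorem exists_pos (hm : 2 ≤ m) (x : TV m l) : ∃ a : Fin m, ∃ i ≤ l + 1, x = pos a i := by
  rcases x with ⟨a, i⟩ | c
  · refine ⟨a, i.1 + 1, by omega, ?_⟩
    unfold pos
    rw [dif_neg (by omega), dif_pos (by omega)]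
    simp
  · cases c
    · exact ⟨⟨0, by omega⟩, 0, by omega, by simp [pos]⟩
    · exact ⟨⟨0, by omega⟩, l + 1, le_rfl, by simp [pos]⟩

theorem cyc_left (a b : Fin m) {i : ℕ} (hi : i ≤ l + 1) (hl : 1 ≤ l) : (cyc a b i : TV m l) = pos a i := by
  unfold cyc
  rw [Nat.mod_eq_of_lt (by omega), if_pos hi]

theorem cyc_right (a b : Fin m) {i : ℕ} (hi : i ≤ l + 1) (hl : 1 ≤ l) :
    (cyc a b (2 * l + 2 - i) : TV m l) = pos b i := by
  unfold cyc
  rcases Nat.eq_zero_or_pos i with h | h
  · subst h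
    simp [pos]
  · rw [Nat.mod_eq_of_lt (by omega)]
    split_ifs with h1
    · have : i = l + 1 := by omega
      subst this
      rw [show 2 * l + 2 - (l + 1) = l + 1 by omega]
      exact pos_last a b
    · rw [show 2 * l + 2 - (2 * l + 2 - i) = i by omega]

theorem exists_cyc (hm : 2 ≤ m) (hl : 1 ≤ l) (x y : TV m l) :
    ∃ a b : Fin m, a ≠ b ∧ ∃ s t : ℕ, s ≤ 2 * l + 2 ∧ t ≤ 2 * l + 2 ∧ x = cyc a b s ∧ y = cyc a b t := by
  obtain ⟨a, i, hi, rfl⟩ := exists_pos hm x
  obtain ⟨b, j, hj, rfl⟩ := exists_pos hm y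
  by_cases hab : a = b
  · subst hab
    obtain ⟨c, hc⟩ := exists_other hm a
    exact ⟨a, c, hc, i, j, by omega, by omega, (cyc_left _ _ hi hl).symm, (cyc_left _ _ hj hl).symm⟩
  · exact ⟨a, b, hab, i, 2 * l + 2 - j, by omega, by omega, (cyc_left _ _ hi hl).symm, (cyc_right _ _ hj hl).symm⟩

theorem theta_add (hm : 2 ≤ m) (hl : 2 ≤ l) (x y : TV m l) (hxy : x ≠ y) (hadj : ¬ (theta m l).Adj x y) :
    ∃ k ∈ Set.Icc 4 (2 * l + 1), HasCycle (theta m l ⊔ SimpleGraph.edge x y) k := by
  obtain ⟨a, b, hab, s, t, hs, ht, rfl, rfl⟩ := exists_cyc hm (by omega) x y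
  -- reduce to `s < t`
  have key : ∀ s t : ℕ, s < t → t ≤ 2 * l + 2 → ¬ (theta m l).Adj (cyc a b s) (cyc a b t) →
      ((cyc a b s : TV m l) ≠ cyc a b t) → ∀ H : SimpleGraph (TV m l), theta m l ≤ H → H.Adj (cyc a b s) (cyc a b t) →
      ∃ k ∈ Set.Icc 4 (2 * l + 1), HasCycle H k := by
    intro s t hst ht hadj hne H hH hclose
    have h1 : t ≠ s + 1 := fun h => hadj (by rw [h]; exact cyc_adj a b s)
    have h2 : t ≠ s + (2 * l + 2) := fun h => hne (by rw [h, cyc_mod])
    have h3 : t + 1 ≠ s + (2 * l + 2) := fun h => hadj (by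
      have := cyc_adj (l := l) a b t
      rw [h, cyc_mod] at this
      exact this.symm)
    by_cases hk : l + 1 ≤ t - s
    · refine ⟨t - s + 1, ⟨by omega, by omega⟩, long_arc hab H hH s (t - s) (by omega) hk (by omega) ?_⟩
      rw [show s + (t - s) = t by omega]
      exact hclose.symm
    · refine ⟨s + (2 * l + 2) - t + 1, ⟨by omega, by omega⟩,
        long_arc hab H hH t (s + (2 * l + 2) - t) (by omega) (by omega) (by omega) ?_⟩
      rw [show t + (s + (2 * l + 2) - t) = s + (2 * l + 2) by omega, cyc_mod]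
      exact hclose
  have hE : (theta m l ⊔ SimpleGraph.edge (cyc a b s) (cyc a b t)).Adj (cyc a b s) (cyc a b t) := by
    right
    simp [SimpleGraph.edge_adj, hxy]
  rcases lt_trichotomy s t with h | h | h
  · exact key s t h ht hadj hxy _ le_sup_left hE
  · exact absurd (by rw [h]) hxy
  · exact key t s h hs (fun h' => hadj h'.symm) hxy.symm _ le_sup_left hE.symm

theorem theta_cycle_long (hl : 1 ≤ l) {v : TV m l} (w : (theta m l).Walk v v) (hw : w.IsCycle) :
    2 * l + 2 ≤ w.length := by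
  classical
  obtain ⟨hcard, hnb⟩ := Pool.Agent.V11124.SeqCycle.cycle_set w hw
  -- interior propagation
  have hstep : ∀ (a : Fin m) (i : ℕ), 1 ≤ i → i ≤ l → pos a i ∈ w.support →
      pos a (i - 1) ∈ w.support ∧ pos a (i + 1) ∈ w.support := by
    intro a i h1 h2 h3
    obtain ⟨y, hy, z, hz, hyz, ha, hb⟩ := hnb _ h3
    rcases nbr_interior h1 h2 ha with rfl | rfl <;> rcases nbr_interior h1 h2 hb with rfl | rfl
    · exact absurd rfl hyz
    · exact ⟨hy, hz⟩
    · exact ⟨hz, hy⟩
    · exact absurd rfl hyz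
  have hall : ∀ (a : Fin m) (i : ℕ), 1 ≤ i → i ≤ l → pos a i ∈ w.support → ∀ j ≤ l + 1, pos a j ∈ w.support := by
    intro a i h1 h2 h3
    have hdown : ∀ d, d ≤ i → pos a (i - d) ∈ w.support := by
      intro d
      induction d with
      | zero => intro _; simpa using h3
      | succ d ih =>
        intro hd
        have := (hstep a (i - d) (by omega) (by omega) (ih (by omega))).1
        rwa [show i - d - 1 = i - (d + 1) by omega] at this
    have hup : ∀ d, i + d ≤ l + 1 → pos a (i + d) ∈ w.support := by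
      intro d
      induction d with
      | zero => intro _; simpa using h3
      | succ d ih =>
        intro hd
        exact (hstep a (i + d) (by omega) (by omega) (ih (by omega))).2
    intro j hj
    rcases le_total j i with h | h
    · have := hdown (i - j) (by omega)
      rwa [show i - (i - j) = j by omega] at this
    · have := hup (j - i) (by omega)
      rwa [show i + (j - i) = j by omega] at this
  have hmpos : 0 < m ∨ m = 0 := by omega
  -- the cycle contains an interior vertex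
  have hint : ∃ (a : Fin m) (i : ℕ), 1 ≤ i ∧ i ≤ l ∧ pos a i ∈ w.support := by
    obtain ⟨y, hy, z, hz, hyz, ha, hb⟩ := hnb v (by simp)
    obtain ⟨b, j, hj, h | h⟩ := ha
    · rcases Nat.eq_zero_or_pos j with h0 | h0
      · subst h0
        exact ⟨b, 1, le_rfl, hl, by rw [h.2] at hy; exact hy⟩
      · exact ⟨b, j, h0, hj, by rw [← h.1]; simp⟩
    · rcases Nat.eq_zero_or_pos j with h0 | h0
      · subst h0
        exact ⟨b, 1, le_rfl, hl, by rw [← h.1]; simp⟩
      · exact ⟨b, j, h0, hj, by rw [← h.2]; exact hy⟩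
  obtain ⟨a, i, h1, h2, h3⟩ := hint
  have h0 := hall a i h1 h2 h3 0 (by omega)
  obtain ⟨y, hy, z, hz, hyz, ha, hb⟩ := hnb _ h0
  obtain ⟨b, rfl⟩ := nbr_zero ha
  obtain ⟨c, rfl⟩ := nbr_zero hb
  have hbc : b ≠ c := by
    rintro rfl
    exact hyz rfl
  have hcyc : ∀ t, cyc b c t ∈ w.support := by
    intro t
    unfold cyc
    split_ifs with h
    · exact hall b 1 le_rfl hl hy _ h
    · exact hall c 1 le_rfl hl hz _ (by omega)
  have hsub : (↑((Finset.range (2 * l + 2)).image (cyc b c) : Finset (TV m l)) : Set (TV m l)) ⊆ {x | x ∈ w.support} := by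
    intro x hx
    simp only [Finset.coe_image, Set.mem_image] at hx
    obtain ⟨t, -, rfl⟩ := hx
    exact hcyc t
  have hle := Set.ncard_le_ncard hsub (Set.toFinite _)
  rw [Set.ncard_coe_finset, Finset.card_image_of_injOn, Finset.card_range, hcard] at hle
  · exact hle
  · intro s hs t ht hst
    have := cyc_inj hbc hst
    simp only [Finset.coe_range, Set.mem_Iio] at hs ht
    rwa [Nat.mod_eq_of_lt hs, Nat.mod_eq_of_lt ht] at this

theorem theta_saturated (hm : 2 ≤ m) (hl : 2 ≤ l) : IsSaturated (Set.Icc 4 (2 * l + 1)) (theta m l) := by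
  refine ⟨?_, fun x y hxy hadj => theta_add hm hl x y hxy hadj⟩
  rintro k hk ⟨v, w, hw, hwl⟩
  have := theta_cycle_long (by omega) w hw
  have := hk.2
  omega

theorem theta_edges : (theta m l).edgeSet.ncard ≤ m * (l + 1) := by
  classical
  have hsub : (theta m l).edgeSet ⊆
      ((Finset.univ : Finset (Fin m × Fin (l + 1))).image (fun p => s(pos p.1 p.2.1, pos p.1 (p.2.1 + 1))) : Finset (Sym2 (TV m l))) := by
    intro e
    induction e using Sym2.ind with
    | _ x y =>
    intro h
    rw [mem_edgeSet] at h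
    obtain ⟨a, i, hi, ⟨rfl, rfl⟩ | ⟨rfl, rfl⟩⟩ := h
    · simp only [Finset.coe_image, Finset.coe_univ, Set.image_univ, Set.mem_range]
      exact ⟨(a, ⟨i, by omega⟩), rfl⟩
    · simp only [Finset.coe_image, Finset.coe_univ, Set.image_univ, Set.mem_range]
      exact ⟨(a, ⟨i, by omega⟩), Sym2.eq_swap⟩
  have h1 := Set.ncard_le_ncard hsub (Set.toFinite _)
  rw [Set.ncard_coe_finset] at h1
  refine h1.trans (Finset.card_image_le.trans ?_)
  simp

end Theta

/-! ### Transport to `Fin n` -/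

theorem saturated_transport {V W : Type} (I : Set ℕ) (G : SimpleGraph V) (e : W ≃ V) (h : IsSaturated I G) :
    IsSaturated I (G.comap e) := by
  constructor
  · intro m hm hc
    exact h.1 m hm (hc.map (SimpleGraph.Hom.comap e G) e.injective)
  · intro x y hxy hadj
    obtain ⟨m, hm, hc⟩ := h.2 (e x) (e y) (fun h' => hxy (e.injective h')) hadj
    refine ⟨m, hm, hc.map ⟨fun v => e.symm v, ?_⟩ e.symm.injective⟩
    intro a b hab
    rcases hab with hab | hab
    · left
      simpa using hab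
    · right
      rw [SimpleGraph.edge_adj] at hab ⊢
      refine ⟨?_, fun h' => hab.2 (e.symm.injective h')⟩
      rcases hab.1 with ⟨rfl, rfl⟩ | ⟨rfl, rfl⟩
      · left; simp
      · right; simp

theorem edges_transport {V W : Type} (G : SimpleGraph V) (e : W ≃ V) :
    (G.comap e).edgeSet.ncard = G.edgeSet.ncard := by
  rw [← Nat.card_coe_set_eq, ← Nat.card_coe_set_eq]
  exact Nat.card_congr (SimpleGraph.Iso.comap e G).mapEdgeSet

theorem sat_upper (m l : ℕ) (hm : 2 ≤ m) (hl : 2 ≤ l) :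
    sat (m * l + 2) (Set.Icc 4 (2 * l + 1)) ≤ m * (l + 1) := by
  have hcard : Fintype.card (TV m l) = m * l + 2 := by simp
  let e : Fin (m * l + 2) ≃ TV m l := (Fintype.equivFinOfCardEq hcard).symm
  have h1 : sat (m * l + 2) (Set.Icc 4 (2 * l + 1)) ≤ ((theta m l).comap e).edgeSet.ncard :=
    Nat.sInf_le ⟨_, saturated_transport _ _ e (theta_saturated hm hl), rfl⟩
  rw [edges_transport] at h1
  exact h1.trans theta_edges

/-! ### The lower bound -/

theorem exists_saturated (n : ℕ) (I : Set ℕ) : ∃ G : SimpleGraph (Fin n), IsSaturated I G := by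
  have hne : ({G : SimpleGraph (Fin n) | ∀ m ∈ I, ¬ HasCycle G m}).Nonempty := by
    refine ⟨⊥, fun m hm ⟨v, w, hw, hl⟩ => ?_⟩
    have h3 := hw.three_le_length
    cases w with
    | nil => simp at h3
    | cons h p => exact h
  obtain ⟨G, hG, hmax⟩ := Set.exists_max_image _ (fun G : SimpleGraph (Fin n) => G.edgeSet.ncard) (Set.toFinite _) hne
  refine ⟨G, hG, fun x y hxy hadj => ?_⟩
  by_contra hcon
  push Not at hcon
  have h1 := hmax (G ⊔ SimpleGraph.edge x y) hcon
  have h2 : G.edgeSet ⊂ (G ⊔ SimpleGraph.edge x y).edgeSet := by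
    rw [Set.ssubset_iff_subset_ne]
    refine ⟨SimpleGraph.edgeSet_mono le_sup_left, fun h => hadj ?_⟩
    have h3 : s(x, y) ∈ (G ⊔ SimpleGraph.edge x y).edgeSet := by
      rw [mem_edgeSet]
      right
      simp [SimpleGraph.edge_adj, hxy]
    rw [← h] at h3
    exact h3
  have h3 := Set.ncard_lt_ncard h2 (Set.toFinite _)
  omega

/-- a cycle through the edge `xy` gives a path from `y` to `x` -/
theorem cycle_edge_path {V : Type} {H : SimpleGraph V} {v x y : V} (w : H.Walk v v) (hw : w.IsCycle)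
    (he : s(x, y) ∈ w.edges) : ∃ p : H.Walk y x, p.IsPath ∧ p.length + 1 = w.length ∧ s(x, y) ∉ p.edges := by
  classical
  have hx : x ∈ w.support := Walk.fst_mem_support_of_mem_edges _ he
  set w1 := w.rotate x hx with hw1
  have hc1 : w1.IsCycle := hw.rotate hx
  have hadj1 : w1.toSubgraph.Adj x y := by
    rw [← Subgraph.mem_edgeSet, Walk.mem_edges_toSubgraph]
    have := (w.rotate_edges x hx)
    exact (this.perm.mem_iff).2 he
  obtain ⟨p', hp', hsnd, hverts⟩ := hc1.exists_isCycle_snd_verts_eq hadj1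
  have hlen1 : w1.length = w.length := by
    rw [← Walk.length_edges, ← Walk.length_edges]
    exact (w.rotate_edges x hx).perm.length_eq
  have hlen : p'.length = w1.length := by
    rw [← (Pool.Agent.V11124.SeqCycle.cycle_set p' hp').1, ← (Pool.Agent.V11124.SeqCycle.cycle_set w1 hc1).1]
    congr 1
    ext z
    have := Set.ext_iff.1 hverts z
    simpa using this
  cases p' with
  | nil => exact absurd rfl hp'.ne_nil
  | @cons _ z _ h q =>
    have hz : z = y := by simpa using hsnd
    subst hz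
    rw [Walk.cons_isCycle_iff] at hp'
    refine ⟨q, hp'.1, ?_, hp'.2⟩
    rw [← hlen1, ← hlen, Walk.length_cons]

section Lower

variable {V : Type} {G : SimpleGraph V}

theorem long_path (h : IsSaturated (Set.Ici 4) G) {x y : V} (hxy : x ≠ y) (hadj : ¬ G.Adj x y) :
    ∃ p : G.Walk y x, p.IsPath ∧ 3 ≤ p.length := by
  obtain ⟨m, hm, v, w, hw, hl⟩ := h.2 x y hxy hadj
  have hsplit : ∀ e ∈ (G ⊔ SimpleGraph.edge x y).edgeSet, e ≠ s(x, y) → e ∈ G.edgeSet := by
    intro e
    induction e using Sym2.ind with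
    | _ a b =>
    intro he hne
    rw [mem_edgeSet] at he ⊢
    rcases he with he | he
    · exact he
    · exfalso
      rw [SimpleGraph.edge_adj] at he
      rcases he.1 with ⟨rfl, rfl⟩ | ⟨rfl, rfl⟩
      · exact hne rfl
      · exact hne Sym2.eq_swap
  have he : s(x, y) ∈ w.edges := by
    by_contra hcon
    have hall : ∀ e ∈ w.edges, e ∈ G.edgeSet := by
      intro e he
      exact hsplit e (w.edges_subset_edgeSet he) (fun h' => hcon (h' ▸ he))
    exact h.1 m hm ⟨v, w.transfer G hall, hw.transfer hall, by rw [Walk.length_transfer]; exact hl⟩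
  obtain ⟨p, hp, hpl, hpe⟩ := cycle_edge_path w hw he
  have hall : ∀ e ∈ p.edges, e ∈ G.edgeSet := by
    intro e he
    exact hsplit e (p.edges_subset_edgeSet he) (fun h' => hpe (h' ▸ he))
  refine ⟨p.transfer G hall, hp.transfer hall, ?_⟩
  rw [Walk.length_transfer]
  have : 4 ≤ m := hm
  omega

theorem no_cycle (h : IsSaturated (Set.Ici 4) G) {v : V} (w : G.Walk v v) (hw : w.IsCycle) : w.length ≤ 3 := by
  by_contra hcon
  exact h.1 w.length (by simp only [Set.mem_Ici]; omega) ⟨v, w, hw, rfl⟩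

/-- closing a path by an edge -/
theorem close_path (h : IsSaturated (Set.Ici 4) G) {y z : V} (hyz : G.Adj y z) (q : G.Walk z y) (hq : q.IsPath)
    (hl : 2 ≤ q.length) : ∃ t, G.Adj y t ∧ G.Adj z t := by
  have hc : (Walk.cons hyz q).IsCycle := by
    rw [Walk.cons_isCycle_iff]
    refine ⟨hq, fun he => ?_⟩
    have := Pool.Agent.V11124.OddCycle.length_of_edge_mem q hq he
    omega
  have h3 := no_cycle h _ hc
  rw [Walk.length_cons] at h3
  cases q with
  | nil => simp at hl
  | @cons _ t _ h1 q =>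
    cases q with
    | nil => simp at hl
    | @cons _ t2 _ h2 q =>
      cases q with
      | nil => exact ⟨t, h2.symm, h1⟩
      | cons h4 q =>
        simp only [Walk.length_cons] at h3
        omega

theorem bridge_matching (h : IsSaturated (Set.Ici 4) G) {x y z : V} (hxy : G.Adj x y) (hyz : G.Adj y z)
    (hxz : x ≠ z) : (∃ t, G.Adj x t ∧ G.Adj y t) ∨ (∃ t, G.Adj y t ∧ G.Adj z t) := by
  classical
  by_cases hadj : G.Adj x z
  · exact Or.inl ⟨z, hadj, hyz⟩
  obtain ⟨p, hp, hpl⟩ := long_path h hxz hadj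
  by_cases hy : y ∈ p.support
  · have hlen : (p.takeUntil y hy).length + (p.dropUntil y hy).length = p.length := by
      rw [← Walk.length_append, Walk.take_spec]
    by_cases h1 : 2 ≤ (p.takeUntil y hy).length
    · exact Or.inr (close_path h hyz _ (hp.takeUntil hy) h1)
    · exact Or.inl (close_path h hxy _ (hp.dropUntil hy) (by omega))
  · exfalso
    have hc : (Walk.cons hxy (Walk.cons hyz p)).IsCycle := by
      rw [Walk.cons_isCycle_iff, Walk.cons_isPath_iff]
      refine ⟨⟨hp, hy⟩, fun he => ?_⟩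
      rw [Walk.edges_cons, List.mem_cons] at he
      rcases he with he | he
      · rw [Sym2.eq_iff] at he
        rcases he with ⟨h1, h2⟩ | ⟨h1, h2⟩
        · exact hxy.ne h1
        · exact hxz h1
      · exact hy (Walk.snd_mem_support_of_mem_edges _ he)
    have h3 := no_cycle h _ hc
    simp only [Walk.length_cons] at h3
    omega

theorem no_diamond (h : IsSaturated (Set.Ici 4) G) {a b c d : V} (hab : a ≠ b) (hac : G.Adj a c)
    (hbc : G.Adj b c) (had : G.Adj a d) (hbd : G.Adj b d) : c = d := by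
  by_contra hcd
  obtain ⟨v, w, hw, hl⟩ := Pool.Agent.V11124.SeqCycle.exists_cycle_of_seq G
    (fun i => if i = 0 then a else if i = 1 then c else if i = 2 then b else d) 3 (by omega)
    (by
      intro i hi
      interval_cases i
      · simpa using hac
      · simpa using hbc.symm
      · simpa using hbd)
    (by simpa using had.symm)
    (by
      intro i hi j hj hij
      have h1 := hac.ne
      have h2 := hbc.ne
      have h3 := had.ne
      have h4 := hbd.ne
      interval_cases i <;> interval_cases j <;> simp_all [eq_comm])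
  have := no_cycle h w hw
  omega

theorem lower_bound [Fintype V] [Nonempty V] (h : IsSaturated (Set.Ici 4) G) :
    5 * Fintype.card V ≤ 4 * G.edgeSet.ncard + 6 := by
  classical
  -- triangles
  set Tri := G.cliqueFinset 3 with hTri
  have hthird : ∀ T ∈ Tri, ∀ a ∈ T, ∀ b ∈ T, a ≠ b → ∃ c, c ≠ a ∧ c ≠ b ∧ T = {a, b, c} ∧ G.Adj a c ∧ G.Adj b c ∧ G.Adj a b := by
    intro T hT a ha b hb hab
    rw [hTri, mem_cliqueFinset_iff] at hT
    have hcard := hT.card_eq
    have h1 : ((T.erase a).erase b).card = 1 := by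
      rw [Finset.card_erase_of_mem (Finset.mem_erase.2 ⟨hab.symm, hb⟩), Finset.card_erase_of_mem ha, hcard]
    obtain ⟨c, hc⟩ := Finset.card_eq_one.1 h1
    have hcm : c ∈ (T.erase a).erase b := by rw [hc]; simp
    rw [Finset.mem_erase, Finset.mem_erase] at hcm
    refine ⟨c, hcm.2.1, hcm.1, ?_, hT.isClique ha hcm.2.2 (Ne.symm hcm.2.1), hT.isClique hb hcm.2.2 (Ne.symm hcm.1),
      hT.isClique ha hb hab⟩
    ext x
    simp only [Finset.mem_insert, Finset.mem_singleton]
    constructor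
    · intro hx
      by_cases hxa : x = a
      · exact Or.inl hxa
      by_cases hxb : x = b
      · exact Or.inr (Or.inl hxb)
      have : x ∈ (T.erase a).erase b := Finset.mem_erase.2 ⟨hxb, Finset.mem_erase.2 ⟨hxa, hx⟩⟩
      rw [hc, Finset.mem_singleton] at this
      exact Or.inr (Or.inr this)
    · rintro (rfl | rfl | rfl)
      · exact ha
      · exact hb
      · exact hcm.2.2
  have huniq : ∀ T ∈ Tri, ∀ T' ∈ Tri, ∀ a b : V, a ∈ T → b ∈ T → a ∈ T' → b ∈ T' → a ≠ b → T = T' := by
    intro T hT T' hT' a b ha hb ha' hb' hab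
    obtain ⟨c, -, -, h1, h2, h3, h4⟩ := hthird T hT a ha b hb hab
    obtain ⟨d, -, -, h5, h6, h7, h8⟩ := hthird T' hT' a ha' b hb' hab
    have := no_diamond h hab h2 h3 h6 h7
    rw [h1, h5, this]
  have hch : ∀ T ∈ Tri, ∃ e : Sym2 V, ∃ a b : V, a ∈ T ∧ b ∈ T ∧ a ≠ b ∧ e = s(a, b) := by
    intro T hT
    have hT' := hT
    rw [hTri, mem_cliqueFinset_iff] at hT'
    have : 1 < T.card := by rw [hT'.card_eq]; omega
    obtain ⟨a, ha, b, hb, hab⟩ := Finset.one_lt_card.1 this
    exact ⟨s(a, b), a, b, ha, hb, hab, rfl⟩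
  have hne2 : Nonempty (Sym2 V) := ⟨s(Classical.arbitrary V, Classical.arbitrary V)⟩
  choose! φ hφ using hch
  have hφinj : Set.InjOn φ (Tri : Set (Finset V)) := by
    intro T hT T' hT' heq
    obtain ⟨a, b, ha, hb, hab, h1⟩ := hφ T hT
    obtain ⟨a', b', ha', hb', hab', h2⟩ := hφ T' hT'
    rw [h1, h2, Sym2.eq_iff] at heq
    rcases heq with ⟨rfl, rfl⟩ | ⟨rfl, rfl⟩
    · exact huniq T hT T' hT' a b ha hb ha' hb' hab
    · exact huniq T hT T' hT' a b ha hb hb' ha' hab
  set S := Tri.image φ with hS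
  have hScard : S.card = Tri.card := Finset.card_image_of_injOn hφinj
  have hSsub : (S : Set (Sym2 V)) ⊆ G.edgeSet := by
    intro e he
    simp only [hS, Finset.coe_image, Set.mem_image, Finset.mem_coe] at he
    obtain ⟨T, hT, rfl⟩ := he
    obtain ⟨a, b, ha, hb, hab, h1⟩ := hφ T hT
    rw [h1, mem_edgeSet]
    obtain ⟨c, -, -, -, -, -, h4⟩ := hthird T hT a ha b hb hab
    exact h4
  -- deleting one edge of each triangle keeps the graph connected
  have hmemS : ∀ T ∈ Tri, ∀ a b : V, a ∈ T → b ∈ T → a ≠ b → s(a, b) ∈ S → φ T = s(a, b) := by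
    intro T hT a b ha hb hab hmem
    rw [hS, Finset.mem_image] at hmem
    obtain ⟨T', hT', h1⟩ := hmem
    obtain ⟨a', b', ha', hb', hab', h2⟩ := hφ T' hT'
    have h3 : a ∈ T' ∧ b ∈ T' := by
      rw [h1, Sym2.eq_iff] at h2
      rcases h2 with ⟨rfl, rfl⟩ | ⟨rfl, rfl⟩
      · exact ⟨ha', hb'⟩
      · exact ⟨hb', ha'⟩
    rw [huniq T hT T' hT' a b ha hb h3.1 h3.2 hab]
    exact h1
  have hstep : ∀ a b : V, G.Adj a b → (G.deleteEdges S).Reachable a b := by
    intro a b hab
    by_cases hmem : s(a, b) ∈ S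
    · have hmem' := hmem
      rw [hS, Finset.mem_image] at hmem'
      obtain ⟨T, hT, h1⟩ := hmem'
      obtain ⟨a', b', ha', hb', hab', h2⟩ := hφ T hT
      have h3 : a ∈ T ∧ b ∈ T := by
        rw [h1, Sym2.eq_iff] at h2
        rcases h2 with ⟨rfl, rfl⟩ | ⟨rfl, rfl⟩
        · exact ⟨ha', hb'⟩
        · exact ⟨hb', ha'⟩
      obtain ⟨c, hca, hcb, hTe, hac, hbc, -⟩ := hthird T hT a h3.1 b h3.2 hab.ne
      have hcT : c ∈ T := by rw [hTe]; simp
      have h4 : (G.deleteEdges S).Adj a c := by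
        rw [deleteEdges_adj]
        refine ⟨hac, fun hm => ?_⟩
        have := hmemS T hT a c h3.1 hcT hca.symm hm
        rw [h1, Sym2.congr_right] at this
        exact hcb this.symm
      have h5 : (G.deleteEdges S).Adj b c := by
        rw [deleteEdges_adj]
        refine ⟨hbc, fun hm => ?_⟩
        have := hmemS T hT b c h3.2 hcT hcb.symm hm
        rw [h1, Sym2.eq_swap, Sym2.congr_right] at this
        exact hca this.symm
      exact h4.reachable.trans h5.symm.reachable
    · have : (G.deleteEdges S).Adj a b := by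
        rw [deleteEdges_adj]
        exact ⟨hab, hmem⟩
      exact this.reachable
  have hwalk : ∀ a b : V, G.Walk a b → (G.deleteEdges S).Reachable a b := by
    intro a b w
    induction w with
    | nil => exact Reachable.refl _
    | cons hadj _ ih => exact (hstep _ _ hadj).trans ih
  have hconn : (G.deleteEdges S).Connected := by
    rw [connected_iff]
    refine ⟨fun a b => ?_, inferInstance⟩
    by_cases hab : a = b
    · subst hab; exact Reachable.refl _
    by_cases hadj : G.Adj a b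
    · exact hstep a b hadj
    · obtain ⟨p, -, -⟩ := long_path h hab hadj
      exact (hwalk _ _ p).symm
  have h1 := hconn.card_vert_le_card_edgeSet_add_one
  rw [Nat.card_eq_fintype_card, Nat.card_coe_set_eq, edgeSet_deleteEdges] at h1
  have h2 : (G.edgeSet \ (S : Set (Sym2 V))).ncard + S.card = G.edgeSet.ncard := by
    rw [← Set.ncard_coe_finset]
    exact Set.ncard_sdiff_add_ncard_of_subset hSsub (Set.toFinite _)
  -- edges outside triangles
  set B : Finset (Sym2 V) := G.edgeFinset.filter (fun e => ¬ ∃ T ∈ Tri, ∀ v ∈ e, v ∈ T) with hB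
  set R : Finset (Sym2 V) := G.edgeFinset.filter (fun e => ∃ T ∈ Tri, ∀ v ∈ e, v ∈ T) with hR
  have h3 : R.card + B.card = G.edgeSet.ncard := by
    rw [hR, hB, Finset.card_filter_add_card_filter_not, ← Set.ncard_coe_finset, coe_edgeFinset]
  have h4 : R.card ≤ 3 * Tri.card := by
    have hsub : R ⊆ Tri.biUnion (fun T => T.offDiag.image (fun p => s(p.1, p.2))) := by
      intro e
      induction e using Sym2.ind with
      | _ a b =>
      intro he
      rw [hR, Finset.mem_filter, mem_edgeFinset, mem_edgeSet] at he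
      obtain ⟨hadj, T, hT, hv⟩ := he
      rw [Finset.mem_biUnion]
      refine ⟨T, hT, ?_⟩
      rw [Finset.mem_image]
      refine ⟨(a, b), ?_, rfl⟩
      rw [Finset.mem_offDiag]
      exact ⟨hv a (by simp), hv b (by simp), hadj.ne⟩
    refine (Finset.card_le_card hsub).trans (Finset.card_biUnion_le.trans ?_)
    rw [mul_comm, ← smul_eq_mul, ← Finset.sum_const]
    apply Finset.sum_le_sum
    intro T hT
    rw [hTri, mem_cliqueFinset_iff] at hT
    have := Sym2.card_image_offDiag T
    rw [hT.card_eq] at this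
    have h33 : Nat.choose 3 2 = 3 := by decide
    rw [h33] at this
    exact this.le
  have h5 : 2 * B.card ≤ Fintype.card V := by
    have hdis : ∀ e ∈ B, ∀ e' ∈ B, e ≠ e' → Disjoint e.toFinset e'.toFinset := by
      intro e he e' he' hne
      rw [Finset.disjoint_left]
      intro y hy hy'
      rw [Sym2.mem_toFinset] at hy hy'
      obtain ⟨x, rfl⟩ := hy
      obtain ⟨z, rfl⟩ := hy'
      rw [hB, Finset.mem_filter, mem_edgeFinset, mem_edgeSet] at he he'
      have hxz : x ≠ z := fun h => hne (by rw [h])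
      rcases bridge_matching h he.1.symm he'.1 hxz with ⟨t, ht1, ht2⟩ | ⟨t, ht1, ht2⟩
      · refine he.2 ⟨{y, x, t}, ?_, ?_⟩
        · rw [hTri, mem_cliqueFinset_iff, is3Clique_triple_iff]
          exact ⟨he.1, ht2, ht1⟩
        · intro v hv
          rw [Sym2.mem_iff] at hv
          rcases hv with rfl | rfl <;> simp
      · refine he'.2 ⟨{y, z, t}, ?_, ?_⟩
        · rw [hTri, mem_cliqueFinset_iff, is3Clique_triple_iff]
          exact ⟨he'.1, ht1, ht2⟩
        · intro v hv
          rw [Sym2.mem_iff] at hv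
          rcases hv with rfl | rfl <;> simp
    have hc := Finset.card_biUnion (s := B) (t := fun e => e.toFinset) (fun e he e' he' hne => hdis e he e' he' hne)
    have hsum : ∑ e ∈ B, e.toFinset.card = B.card * 2 := by
      rw [Finset.sum_const_nat]
      intro e he
      rw [hB, Finset.mem_filter, mem_edgeFinset] at he
      exact Sym2.card_toFinset_of_not_isDiag e (G.not_isDiag_of_mem_edgeSet he.1)
    rw [hsum] at hc
    have := Finset.card_le_univ (B.biUnion (fun e => e.toFinset))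
    omega
  omega

end Lower

theorem sat_lower (n : ℕ) (hn : 1 ≤ n) : 5 * n ≤ 4 * sat n (Set.Ici 4) + 6 := by
  have hne : ({e | ∃ G : SimpleGraph (Fin n), IsSaturated (Set.Ici 4) G ∧ G.edgeSet.ncard = e}).Nonempty := by
    obtain ⟨G, hG⟩ := exists_saturated n (Set.Ici 4)
    exact ⟨_, G, hG, rfl⟩
  obtain ⟨G, hG, he⟩ := Nat.sInf_mem hne
  have : Nonempty (Fin n) := ⟨⟨0, hn⟩⟩
  have h := lower_bound hG
  rw [Fintype.card_fin] at h
  unfold sat
  rw [← he]
  exact h

theorem sat_lt (m l : ℕ) (hm : 2 ≤ m) (hl : 4 ≤ l) :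
    sat (m * l + 2) (Set.Icc 4 (2 * l + 1)) < sat (m * l + 2) (Set.Ici 4) := by
  have h1 := sat_upper m l hm (by omega)
  have h2 := sat_lower (m * l + 2) (by omega)
  have h3 : m * 4 ≤ m * l := Nat.mul_le_mul_left m hl
  have h4 : m * (l + 1) = m * l + m := by ring
  omega

/-- For all `l ≥ 4` and `m ≥ 2`, with `r = 2l+1` and `n = ml+2`, one has
`sat(n, C_[4,r]) < sat(n, C_[4,∞))`; hence Q1 fails (at `s = 4`, for every odd `r ≥ 9`). -/
theorem result :
    (∀ l m : ℕ, 4 ≤ l → 2 ≤ m →
      sat (m * l + 2) (Set.Icc 4 (2 * l + 1)) < sat (m * l + 2) (Set.Ici 4)) ∧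
    ¬ ∃ (r₀ : ℕ → ℕ) (n₀ : ℕ → ℕ → ℕ), ∀ s ≥ 4, ∀ r ≥ r₀ s, ∀ n ≥ n₀ s r,
      sat n (Set.Icc s r) = sat n (Set.Ici s) := by
  refine ⟨fun l m hl hm => sat_lt m l hm hl, ?_⟩
  rintro ⟨r₀, n₀, h⟩
  set l := r₀ 4 + 4 with hl
  set m := n₀ 4 (2 * l + 1) + 2 with hm
  have h1 := sat_lt m l (by omega) (by omega)
  have h2 := h 4 le_rfl (2 * l + 1) (by omega) (m * l + 2) (by
    have : m * 1 ≤ m * l := Nat.mul_le_mul_left m (by omega)
    omega)
  omega

end Pool.Agent.Results.MP_0fee77_co.ThetaSaturated
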